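import Mathlib
import Pool.Agent.H892Z.Per.Main

/-!
The family `y² = x⁵ + s x`, `s ≠ 0`, of smooth genus two curves has pairwise isomorphic fibres,
and at every algebraic point the closure of the period matrix is strictly smaller than the fibre
of the closure of the graph.
-/

set_option autoImplicit false

namespace Pool.Agent.Results.MP_5591bc_ag.ACounterexample

open Pool.Agent.H892Z.Per Polynomial

theorem result :
    (∀ s : ℂ, s ≠ 0 → (X ^ 5 + C s * X : ℂ[X]).Separable) ∧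
    (∀ s s' : ℂ, s ≠ 0 → s' ≠ 0 → ∃ l m : ℂ, l ≠ 0 ∧ m ≠ 0 ∧ ∀ x y : ℂ,
      y ^ 2 = x ^ 5 + s * x ↔ (m * y) ^ 2 = (l * x) ^ 5 + s' * (l * x)) ∧
    ∃ P : ℂ → Matrix (Fin 4) (Fin 4) ℂ, IsPeriodMap Complex.slitPlane P ∧
      (∀ j i, DifferentiableOn ℂ (fun s => P s j i) Complex.slitPlane) ∧
      ∀ s₀ ∈ Complex.slitPlane, IsAlgebraic ℚ s₀ →
        pointClosure (P s₀) ⊂ graphClosureFibre Complex.slitPlane P s₀ := by
  refine ⟨fun s hs => ?_, fun s s' hs hs' => ?_, fun s => QQ (rt s), isPeriodMap,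
    fun j i s hs => ?_, fun s₀ hs ha => strict hs ha⟩
  · have h1 : (C s⁻¹ : ℂ[X]) * C s = 1 := by rw [← C_mul, inv_mul_cancel₀ hs, C_1]
    have h2 : (C (4 : ℂ)⁻¹ : ℂ[X]) * 4 = 1 := by
      rw [show (4 : ℂ[X]) = C 4 from rfl, ← C_mul, inv_mul_cancel₀ (by norm_num), C_1]
    have h3 : derivative (X ^ 5 + C s * X : ℂ[X]) = 5 * X ^ 4 + C s := by
      simp
      rw [show (C 4 : ℂ[X]) = 4 from rfl]
      norm_num
    refine ⟨-25 * C (4 : ℂ)⁻¹ * C s⁻¹ ^ 2 * X ^ 3,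
      C s⁻¹ + 5 * C (4 : ℂ)⁻¹ * C s⁻¹ ^ 2 * X ^ 4, ?_⟩
    rw [h3]
    linear_combination (1 - 20 * C (4 : ℂ)⁻¹ * C s⁻¹ * X ^ 4) * h1 - (5 * C s⁻¹ * X ^ 4) * h2
  · have h0 := rt_ne (s' / s)
    have h1 := rt_pow (div_ne_zero hs' hs)
    have h2 : s' = rt (s' / s) ^ 8 * s := by rw [h1]; field_simp
    refine ⟨rt (s' / s) ^ 2, rt (s' / s) ^ 5, pow_ne_zero _ h0, pow_ne_zero _ h0, fun x y => ?_⟩
    generalize rt (s' / s) = τ at h0 h2
    subst h2
    constructor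
    · intro h
      linear_combination τ ^ 10 * h
    · intro h
      apply mul_left_cancel₀ (pow_ne_zero 10 h0)
      linear_combination h
  · exact (QQ_diff ((rt_diff s hs).differentiableAt (Complex.isOpen_slitPlane.mem_nhds hs))
      (rt_ne s) j i).differentiableWithinAt

end Pool.Agent.Results.MP_5591bc_ag.ACounterexample
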